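import Pool.Agent.Lib.MP_72e2e6_nt.P3.F.Spec

/-!
# MP_72e2e6_nt, theorem T3p, part F: the literal form of the properties
-/

namespace Pool.Agent.MP72P

open WeierstrassCurve
open Pool.Agent.MP72W (pmap)
open Pool.Agent.MP72V

section

variable {L : Type} [Field L] {V : WeierstrassCurve.Affine L}

private theorem e_add (i j : DecidableEq L) (P Q : V.Point) :
    (letI := i; P + Q) = (letI := j; P + Q) := by
  obtain rfl : i = j := Subsingleton.elim i j
  rfl

private theorem e_sub (i j : DecidableEq L) (P Q : V.Point) :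
    (letI := i; P - Q) = (letI := j; P - Q) := by
  obtain rfl : i = j := Subsingleton.elim i j
  rfl

private theorem e_smul (i j : DecidableEq L) (n : ℕ) (P : V.Point) :
    (letI := i; n • P) = (letI := j; n • P) := by
  obtain rfl : i = j := Subsingleton.elim i j
  rfl

private theorem e_sum (i j : DecidableEq L) {p : ℕ} [Fact p.Prime] (v : ZMod p → V.Point)
    (h : letI := i; ∑ k, v k = 0) : (letI := j; ∑ k, v k = 0) := by
  obtain rfl : i = j := Subsingleton.elim i j
  exact h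

end

open scoped Classical

section

variable {K : Type} [Field K] (W : WeierstrassCurve K) {p : ℕ} [Fact p.Prime]
  (h : Gal(Kgs K/K) → ZMod p)

private theorem rat_eq : MP72Q.Rat W h = RatV W h := by
  ext v
  constructor
  · rintro ⟨h1, h2⟩
    exact ⟨e_sum _ _ _ h1, fun σ => funext fun i => h2 σ i⟩
  · rintro ⟨h1, h2⟩
    exact ⟨e_sum _ _ _ h1, fun σ i => congrFun (h2 σ) i⟩

private theorem dense_compl (v : AbsoluteValue K ℝ) :
    DenseRange (algebraMap K v.Completion) := by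
  have h : DenseRange ((↑) : WithAbs v → v.Completion) := UniformSpace.Completion.denseRange_coe
  intro x
  have := h x
  rw [Metric.mem_closure_iff] at this ⊢
  intro ε hε
  obtain ⟨_, ⟨y, rfl⟩, hy⟩ := this ε hε
  exact ⟨_, ⟨WithAbs.equiv v y, rfl⟩, hy⟩

private theorem norm_compl (v : AbsoluteValue K ℝ) (x : K) :
    ‖algebraMap K v.Completion x‖ = v x :=
  UniformSpace.Completion.norm_coe _

private theorem sha_of {z : Gal(Kgs K/K) → ZMod p → (W⁄(Kgs K)).toAffine.Point}
    (hz : MP72Q.InSha W h z) : ShaV W h z := by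
  refine ⟨⟨hz.1.loc, fun σ => e_sum _ _ _ (hz.1.sum σ),
    fun σ τ => funext fun i => (hz.1.mul σ τ i).trans (e_add _ _ _ _)⟩, fun v hv ι => ?_⟩
  obtain ⟨Q, h1, h2⟩ := hz.2 v hv v.Completion (Kvs v) (norm_compl v) (dense_compl v) ι
  exact ⟨Q, e_sum _ _ _ h1, fun σ τ hh i => (h2 σ τ hh i).trans (e_sub _ _ _ _)⟩

private theorem shap_of (hS : ShaFinV W h) : MP72Q.ShaPFin W h := by
  obtain ⟨T, hT, hS⟩ := hS
  refine ⟨T, hT, fun z hz ⟨n, P, hP, hP2⟩ => ?_⟩
  obtain ⟨y, hy, Q, hQ, hQ2⟩ := hS z (sha_of W h hz) ⟨n, P, e_sum _ _ _ hP,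
    fun σ => funext fun i => ((e_smul _ _ _ _).trans (hP2 σ i)).trans (e_sub _ _ _ _)⟩
  exact ⟨y, hy, Q, e_sum _ _ _ hQ,
    fun σ i => ((e_sub _ _ _ _).trans (congrFun (hQ2 σ) i)).trans (e_sub _ _ _ _)⟩

end

theorem tEql : S_Eql := by
  intro p _ K _ W h hG
  exact ⟨by rw [rat_eq]; exact hG.1, shap_of W h hG.2⟩

end Pool.Agent.MP72P
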