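import Pool.Agent.Lib.MP_72e2e6_nt.P3.F.Spec

/-!
# MP_72e2e6_nt, theorem T3p, part F: the degree of the Artin-Schreier extension

The auxiliary lemmas are copied from `P3/B/Twt.lean`.
-/

set_option autoImplicit false

namespace Pool.Agent.MP72P

open IntermediateField Polynomial

section as

variable {p : ℕ} [Fact p.Prime]

private noncomputable def fdg_e (p : ℕ) (L : Type) [Field L] [CharP L p] : ZMod p →+* L :=
  ZMod.castHom (dvd_refl p) L

private theorem fdg_e_val {L : Type} [Field L] [CharP L p] (c : ZMod p) :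
    ((c.val : ℕ) : L) = fdg_e p L c := by
  unfold fdg_e
  rw [ZMod.castHom_apply, ZMod.natCast_val]

private theorem fdg_fix {L : Type} [Field L] [CharP L p] {x : L} (hx : x ^ p = x) :
    ∃ c : ZMod p, x = fdg_e p L c := by
  classical
  have hp1 : 1 < p := (Fact.out : p.Prime).one_lt
  have hP0 : (X ^ p - X : L[X]) ≠ 0 := FiniteField.X_pow_card_sub_X_ne_zero L hp1
  have hPd : (X ^ p - X : L[X]).natDegree = p := FiniteField.X_pow_card_sub_X_natDegree_eq L hp1
  have hsub : (Finset.univ.image (fdg_e p L)) ⊆ (X ^ p - X : L[X]).roots.toFinset := by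
    intro y hy
    obtain ⟨c, -, rfl⟩ := Finset.mem_image.1 hy
    rw [Multiset.mem_toFinset, mem_roots hP0, IsRoot.def, eval_sub, eval_pow, eval_X,
      ← map_pow, ZMod.pow_card, sub_self]
  have hcard : (X ^ p - X : L[X]).roots.toFinset.card ≤ (Finset.univ.image (fdg_e p L)).card := by
    rw [Finset.card_image_of_injective _ (fdg_e p L).injective, Finset.card_univ, ZMod.card]
    exact (Multiset.toFinset_card_le _).trans ((card_roots' _).trans hPd.le)
  have heq := Finset.eq_of_subset_of_card_le hsub hcard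
  have hxr : x ∈ (X ^ p - X : L[X]).roots.toFinset := by
    rw [Multiset.mem_toFinset, mem_roots hP0, IsRoot.def, eval_sub, eval_pow, eval_X, hx, sub_self]
  rw [← heq] at hxr
  obtain ⟨c, -, hc⟩ := Finset.mem_image.1 hxr
  exact ⟨c, hc.symm⟩

private theorem fdg_Q {F : Type} [CommRing F] [Nontrivial F] (m : F) :
    (X ^ p - (X + C m) : F[X]).natDegree = p ∧ (X ^ p - (X + C m) : F[X]).Monic := by
  have hp1 : 1 < p := (Fact.out : p.Prime).one_lt
  have h1 : (X + C m : F[X]).natDegree = 1 := natDegree_X_add_C m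
  have h2 : (X + C m : F[X]).degree < (p : ℕ) := by
    refine degree_le_natDegree.trans_lt ?_
    rw [h1]
    exact_mod_cast hp1
  refine ⟨?_, monic_X_pow_sub h2⟩
  rw [natDegree_sub_eq_left_of_natDegree_lt, natDegree_X_pow]
  rw [h1, natDegree_X_pow]
  exact hp1

private theorem fdg_splits {L : Type} [Field L] [CharP L p] (θ : L) :
    Splits (X ^ p - (X + C (θ ^ p - θ)) : L[X]) := by
  classical
  obtain ⟨hd, hm⟩ := fdg_Q (p := p) (θ ^ p - θ)
  rw [splits_iff_card_roots]
  refine le_antisymm (card_roots' _) ?_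
  have hinj : Function.Injective fun c : ZMod p => θ + fdg_e p L c := fun c c' h =>
    (fdg_e p L).injective (add_left_cancel h)
  have h1 : (Finset.univ.image fun c : ZMod p => θ + fdg_e p L c).card = p := by
    rw [Finset.card_image_of_injective _ hinj, Finset.card_univ, ZMod.card]
  have h2 : (Finset.univ.image fun c : ZMod p => θ + fdg_e p L c) ⊆
      (X ^ p - (X + C (θ ^ p - θ)) : L[X]).roots.toFinset := by
    intro y hy
    obtain ⟨c, -, rfl⟩ := Finset.mem_image.1 hy
    rw [Multiset.mem_toFinset, mem_roots hm.ne_zero, IsRoot.def, eval_sub, eval_pow, eval_add,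
      eval_X, eval_C, add_pow_char, ← map_pow, ZMod.pow_card]
    ring
  rw [hd]
  calc p = _ := h1.symm
    _ ≤ _ := Finset.card_le_card h2
    _ ≤ _ := Multiset.toFinset_card_le _

variable {F L : Type} [Field F] [Field L] [Algebra F L] [CharP F p] [CharP L p]

private theorem fdg_sum (θ : L) (R : Multiset L) (h : ∀ y ∈ R, ∃ z : F, algebraMap F L z = y - θ) :
    ∃ z : F, algebraMap F L z = R.sum - (R.card : L) * θ := by
  induction R using Multiset.induction_on with
  | empty => exact ⟨0, by simp⟩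
  | cons a R ih =>
    obtain ⟨z, hz⟩ := ih fun y hy => h y (Multiset.mem_cons_of_mem hy)
    obtain ⟨w, hw⟩ := h a (Multiset.mem_cons_self a R)
    refine ⟨w + z, ?_⟩
    rw [map_add, hz, hw, Multiset.sum_cons, Multiset.card_cons]
    push_cast
    ring

/-- the degree -/
private theorem fdg_deg (θ : L) (m : F) (hθ : θ ^ p - θ = algebraMap F L m)
    (hn : θ ∉ Set.range (algebraMap F L)) :
    IsIntegral F θ ∧ (minpoly F θ).natDegree = p := by
  obtain ⟨hd, hm⟩ := fdg_Q (p := p) m
  have hroot : aeval θ (X ^ p - (X + C m) : F[X]) = 0 := by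
    rw [map_sub, map_add, map_pow, aeval_X, aeval_C, ← hθ]
    ring
  have hint : IsIntegral F θ := ⟨_, hm, hroot⟩
  refine ⟨hint, ?_⟩
  have hdvd := minpoly.dvd F θ hroot
  have hle : (minpoly F θ).natDegree ≤ p := by
    rw [← hd]
    exact natDegree_le_of_dvd hdvd hm.ne_zero
  by_contra hne
  have hlt : (minpoly F θ).natDegree < p := lt_of_le_of_ne hle hne
  have hpos : 0 < (minpoly F θ).natDegree := minpoly.natDegree_pos hint
  have hmap : (X ^ p - (X + C m) : F[X]).map (algebraMap F L) =
      X ^ p - (X + C (θ ^ p - θ)) := by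
    rw [Polynomial.map_sub, Polynomial.map_add, Polynomial.map_pow, map_X, map_C, hθ]
  have hdvd' : (minpoly F θ).map (algebraMap F L) ∣ X ^ p - (X + C (θ ^ p - θ)) := by
    rw [← hmap]
    exact Polynomial.map_dvd _ hdvd
  have hQ0 : (X ^ p - (X + C (θ ^ p - θ)) : L[X]) ≠ 0 := (fdg_Q (p := p) (θ ^ p - θ)).2.ne_zero
  have hs : Splits ((minpoly F θ).map (algebraMap F L)) := (fdg_splits θ).of_dvd hQ0 hdvd'
  have hmon : ((minpoly F θ).map (algebraMap F L)).Monic := (minpoly.monic hint).map _
  have hnc := hs.nextCoeff_eq_neg_sum_roots_of_monic hmon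
  have hcard : ((minpoly F θ).map (algebraMap F L)).roots.card = (minpoly F θ).natDegree := by
    rw [splits_iff_card_roots.1 hs, natDegree_map]
  obtain ⟨z, hz⟩ := fdg_sum (F := F) θ ((minpoly F θ).map (algebraMap F L)).roots (by
    intro y hy
    have h1 : IsRoot ((minpoly F θ).map (algebraMap F L)) y := isRoot_of_mem_roots hy
    have h2 : IsRoot (X ^ p - (X + C (θ ^ p - θ)) : L[X]) y := h1.dvd hdvd'
    rw [IsRoot.def, eval_sub, eval_pow, eval_add, eval_X, eval_C] at h2
    have h3 : (y - θ) ^ p = y - θ := by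
      rw [sub_pow_char]
      linear_combination h2
    obtain ⟨c, hc⟩ := fdg_fix h3
    refine ⟨fdg_e p F c, ?_⟩
    rw [hc, ← fdg_e_val, ← fdg_e_val, map_natCast])
  rw [nextCoeff_map_eq] at hnc
  rw [hcard] at hz
  have hd0 : ((minpoly F θ).natDegree : F) ≠ 0 := by
    intro h0
    have h1 := (CharP.cast_eq_zero_iff F p _).1 h0
    exact absurd (Nat.le_of_dvd hpos h1) (by omega)
  refine hn ⟨((minpoly F θ).natDegree : F)⁻¹ * (-(minpoly F θ).nextCoeff - z), ?_⟩
  have h5 : algebraMap F L ((minpoly F θ).natDegree : F) ≠ 0 := by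
    rw [Ne, map_eq_zero]
    exact hd0
  rw [map_mul, map_inv₀, map_sub, map_neg, hnc, hz, neg_neg]
  rw [inv_mul_eq_iff_eq_mul₀ h5, map_natCast]
  ring

end as

theorem tFdg : S_Fdg := by
  intro p _ K _ _ D hD θ hθ
  have : CharP (Kgs K) p := charP_of_injective_algebraMap (algebraMap K (Kgs K)).injective p
  obtain ⟨h1, h2⟩ := fdg_deg θ D hθ (by
    rintro ⟨x, rfl⟩
    refine hD ⟨x, (algebraMap K (Kgs K)).injective ?_⟩
    rw [map_sub, map_pow, hθ])
  rw [IntermediateField.adjoin.finrank h1, h2]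

end Pool.Agent.MP72P
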