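import Pool.Agent.Lib.MP_72e2e6_nt.P3.F.Spec

/-!
# MP_72e2e6_nt, theorem T3p, part F: module Fin (the final statement)
-/

namespace Pool.Agent.MP72P

open WeierstrassCurve IntermediateField
open Pool.Agent.MP72W (pmap)
open Pool.Agent.MP72V

open scoped Classical

private theorem finChar {p : ℕ} {K : Type} [Field K] (h : GFld p K) : CharP K p := by
  obtain ⟨F, _, _, _, _, -, -⟩ := h
  have h1 : CharP (RatFunc F) p :=
    charP_of_injective_algebraMap (algebraMap F (RatFunc F)).injective p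
  exact charP_of_injective_algebraMap (algebraMap (RatFunc F) K).injective p

private theorem finGood (hHas : S_Has) (hFdg : S_Fdg) (hIdx : S_IdxE) (hEql : S_Eql) (p : ℕ)
    [Fact p.Prime] (hp2 : p ≠ 2) (K : Type) [Field K] [CharP K p] (E : WeierstrassCurve K)
    (hNf : IsNf E) (D : K) (hD0 : ¬ ∃ x : K, x ^ p - x = D) (hGd : GdV E (hD p D)) :
    MP72Q.Good E p D := by
  have hpp : p.Prime := Fact.out
  have hch : CharP (Kgs K) p := charP_of_injective_algebraMap (algebraMap K (Kgs K)).injective p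
  obtain ⟨x, hx⟩ := IsSepClosed.exists_root_C_mul_X_pow_add_C_mul_X_add_C (n := p) (1 : Kgs K)
    (-1) (-(algebraMap K (Kgs K) D)) (CharP.cast_eq_zero (Kgs K) p) hpp.two_le
    (neg_ne_zero.2 one_ne_zero)
  have hH := hHas p K (Kgs K) 1 1 one_ne_zero (by rw [one_pow, map_one])
  have hroot : ∃ x : Kgs K, Ph p (algebraMap K (Kgs K) 1) x = algebraMap K (Kgs K) D := by
    refine ⟨x, ?_⟩
    unfold Ph
    rw [map_one]
    linear_combination hx
  obtain ⟨hcoc, θ, hθ, hσ⟩ := hH.2.2.1 D hroot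
  have hom1 := hH.2.2.2.2.2
  have hθ1 : θ ^ p - θ = algebraMap K (Kgs K) D := by
    rw [← hθ]
    unfold Ph
    rw [map_one, one_mul]
  have hσ1 : ∀ σ : Gal(Kgs K/K), σ θ = θ + ((hD p D σ).val : Kgs K) := by
    intro σ
    rw [hσ σ, mul_one]
    rfl
  have hHom : HomP p (hD p D) := by
    refine ⟨hcoc.loc, fun a b => ?_⟩
    have h1 := hcoc.mul a b
    have h2 : omc p (1 : Kgs K) a * hP p (1 : Kgs K) D b = hP p (1 : Kgs K) D b := by
      rw [hom1, one_mul]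
    exact h1.trans (congrArg (fun y => hP p (1 : Kgs K) D a + y) h2)
  have hne : ∃ σ, hD p D σ ≠ 0 := by
    by_contra hcon
    push Not at hcon
    apply hD0
    have hfix : ∀ σ : Gal(Kgs K/K), σ θ = θ := by
      intro σ
      rw [hσ1, hcon, ZMod.val_zero, Nat.cast_zero, add_zero]
    obtain ⟨y, hy⟩ := (InfiniteGalois.mem_range_algebraMap_iff_fixed θ).2 hfix
    refine ⟨y, (algebraMap K (Kgs K)).injective ?_⟩
    rw [map_sub, map_pow, hy, hθ1]
  obtain ⟨e1, e2⟩ := hEql p K E (hD p D) hGd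
  exact ⟨θ, hD p D, hθ1, hσ1, hFdg p K D hD0 θ hθ1, e1, e2,
    hIdx p hp2 K E hNf D θ (hD p D) hθ1 hσ1 hHom hne hGd.1⟩

private theorem finExp {n : ℕ} (B : Fin n → ℝ) : ∃ e : ℕ, ∀ j, B j ≤ 2 ^ e := by
  choose N hN using fun j => pow_unbounded_of_one_lt (B j) (one_lt_two (α := ℝ))
  exact ⟨Finset.univ.sup N, fun j => (hN j).le.trans
    (pow_le_pow_right₀ one_le_two (Finset.le_sup (Finset.mem_univ j)))⟩

theorem tFin : S_Na → S_Has → S_Fdg → S_IdxE → S_Eql → S_Thm → S_Fin := by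
  intro hNa hHas hFdg hIdx hEql hThm p _ hp2 K _ hG E hΔ ha1 ha3 hOd
  have hG' : GFld p K := hG
  have hch : CharP K p := finChar hG'
  have hNf : IsNf E := ⟨ha1, ha3, isUnit_iff_ne_zero.2 hΔ⟩
  obtain ⟨m, av₀, hnt, H⟩ := hThm p hp2 K hG' E hNf hOd
  refine ⟨m, av₀, hnt, fun n av hPl hc ε hε => ?_⟩
  obtain ⟨hfin, H2⟩ := H n av ⟨hPl.ntr, hPl.inq⟩ hc
  obtain ⟨e₀, he₀⟩ := H2 ε hε
  refine ⟨2 ^ e₀, fun B hB => ?_⟩
  have hna : ∀ v : AbsoluteValue K ℝ, IsNonarchimedean v := hNa p K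
  have hB0 : ∀ j, 0 ≤ B j := fun j => (pow_pos two_pos e₀).le.trans (hB j)
  let 𝒟 : AddSubgroup (OS av) :=
    { carrier := {D | ∀ j, av j (D : K) ≤ B j}
      add_mem' := fun {a b} ha hb j =>
        (hna (av j) (a : K) (b : K)).trans (max_le (ha j) (hb j))
      zero_mem' := fun j => by
        have h : ((0 : OS av) : K) = 0 := rfl
        rw [h, map_zero]
        exact hB0 j
      neg_mem' := fun {a} ha j => by
        have h : ((-a : OS av) : K) = -(a : K) := rfl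
        rw [h, AbsoluteValue.map_neg]
        exact ha j }
  have h𝒟 : ∀ D : OS av, D ∈ 𝒟 ↔ ∀ j, av j (D : K) ≤ B j := fun D => Iff.rfl
  obtain ⟨e, he⟩ := finExp B
  have h𝒟fin : (𝒟 : Set (OS av)).Finite :=
    (hfin e).subset fun D hD j _ => ((h𝒟 D).1 hD j).trans (he j)
  have hle : FS av e₀ ≤ 𝒟 := fun D hD j => (hD j (hna (av j))).trans (hB j)
  have hbad := he₀ 𝒟 h𝒟fin hle
  have hinj : Function.Injective fun D : OS av => (D : K) := Subtype.val_injective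
  have hTw : MP72Q.Tw av B = (fun D : OS av => (D : K)) '' (𝒟 : Set (OS av)) := by
    ext x
    constructor
    · rintro ⟨hx1, hx2⟩
      exact ⟨⟨x, fun v hv _ hne => hx1 v hv hne⟩, hx2, rfl⟩
    · rintro ⟨D, hD, rfl⟩
      exact ⟨fun v hv hne => D.2 v hv (hna v) hne, hD⟩
  have hTwfin : (MP72Q.Tw av B).Finite := by
    rw [hTw]
    exact h𝒟fin.image _
  refine ⟨hTwfin, ?_⟩
  have hcard : (MP72Q.Tw av B).ncard = (𝒟 : Set (OS av)).ncard := by
    rw [hTw, Set.ncard_image_of_injective _ hinj]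
  have hNc : (Nat.card 𝒟 : ℝ) = ((𝒟 : Set (OS av)).ncard : ℝ) := by
    rw [← Nat.card_coe_set_eq]
    rfl
  rw [hNc] at hbad
  -- the good elements
  have hsplit : {D : OS av | D ∈ 𝒟 ∧ ((¬ ∃ x : K, x ^ p - x = (D : K)) ∧
      GdV E (hD p (D : K)))}.ncard + {D : OS av | D ∈ 𝒟 ∧ ¬ ((¬ ∃ x : K, x ^ p - x = (D : K)) ∧
      GdV E (hD p (D : K)))}.ncard = (𝒟 : Set (OS av)).ncard := by
    rw [← Set.ncard_union_eq (by
      rw [Set.disjoint_left]
      rintro D ⟨-, h1⟩ ⟨-, h2⟩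
      exact h2 h1) (h𝒟fin.subset fun D hD => hD.1) (h𝒟fin.subset fun D hD => hD.1)]
    congr 1
    ext D
    simp only [Set.mem_union, Set.mem_ofPred_eq, SetLike.mem_coe]
    tauto
  have hgood : {D : OS av | D ∈ 𝒟 ∧ ((¬ ∃ x : K, x ^ p - x = (D : K)) ∧
      GdV E (hD p (D : K)))}.ncard ≤ {D ∈ MP72Q.Tw av B | MP72Q.Good E p D}.ncard := by
    rw [← Set.ncard_image_of_injective _ hinj]
    refine Set.ncard_le_ncard ?_ (hTwfin.subset fun D hD => hD.1)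
    rintro x ⟨D, ⟨hD1, hD2, hD3⟩, rfl⟩
    refine ⟨?_, finGood hHas hFdg hIdx hEql p hp2 K E hNf _ hD2 hD3⟩
    rw [hTw]
    exact ⟨D, hD1, rfl⟩
  rw [hcard]
  have h1 : (({D : OS av | D ∈ 𝒟 ∧ ((¬ ∃ x : K, x ^ p - x = (D : K)) ∧
      GdV E (hD p (D : K)))}.ncard : ℕ) : ℝ) + (({D : OS av | D ∈ 𝒟 ∧
      ¬ ((¬ ∃ x : K, x ^ p - x = (D : K)) ∧ GdV E (hD p (D : K)))}.ncard : ℕ) : ℝ) =
      (((𝒟 : Set (OS av)).ncard : ℕ) : ℝ) := by
    exact_mod_cast hsplit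
  have h2 : (({D : OS av | D ∈ 𝒟 ∧ ((¬ ∃ x : K, x ^ p - x = (D : K)) ∧
      GdV E (hD p (D : K)))}.ncard : ℕ) : ℝ) ≤
      (({D ∈ MP72Q.Tw av B | MP72Q.Good E p D}.ncard : ℕ) : ℝ) := by
    exact_mod_cast hgood
  linarith

end Pool.Agent.MP72P
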