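import Pool.Agent.Lib.MP_72e2e6_nt.P3.F.Ifc
import Pool.Agent.Lib.MP_72e2e6_nt.P3.F.Lit
import Pool.Agent.Lib.MP_72e2e6_nt.P3.E.SpecB
import Pool.Agent.Lib.MP_72e2e6_nt.P3.EN.Spec
import Pool.Agent.Lib.MP_72e2e6_nt.P3.N2.SpecB
import Pool.Agent.Lib.MP_72e2e6_nt.P3.L.Spec

/-!
# MP_72e2e6_nt, theorem T3p, part F: the final assembly

The proofs are complete in the docstrings; every module is independent (used statements are
hypotheses): file `P3/F/<Name>.lean` (import this file only) with `theorem t<Name> : S_<Name>` or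
`theorem t<Name> (h1 : S_X) (h2 : S_Y) .. : S_<Name>` (in the order of the docstring), namespace
`Pool.Agent.MP72P` (`open Pool.Agent.MP72V`), other declarations `private`, `open scoped Classical`. The
literal definitions and the final statement `MP72Q.T3p` are in `P3/F/Lit.lean`.
-/

namespace Pool.Agent.MP72P

open WeierstrassCurve IntermediateField
open Pool.Agent.MP72W (pmap)
open Pool.Agent.MP72V

open scoped Classical

/-- **Fdg** (120 lines). The degree of the Artin-Schreier extension.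

Proof. `θ ∉ K` (as `θ ^ p - θ = D`). `f = X ^ p - X - C D ∈ K[X]` is irreducible: over `K^s` it is the product of the
`X - θ - c`, `c` in the prime field; a monic factor `g ∈ K[X]` of degree `d`, `0 < d < p`, is a product of `d` of them
and its coefficient of `X ^ (d - 1)` is `- (d θ + c')`, `c'` in the prime field, so `d θ ∈ K`, `θ ∈ K`. (See the proof of
this in `P3/B/Twt.lean`.) So `f` is the minimal polynomial of `θ` and `finrank K K⟮θ⟯ = natDegree f = p`
(`IntermediateField.adjoin.finrank`). -/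
def S_Fdg : Prop :=
  ∀ (p : ℕ) [Fact p.Prime] (K : Type) [Field K] [CharP K p] (D : K), (¬ ∃ x : K, x ^ p - x = D) →
    ∀ θ : Kgs K, θ ^ p - θ = algebraMap K (Kgs K) D → Module.finrank K K⟮θ⟯ = p

/-- **IdxE** (200 lines, uses `MP72V.S_Bas`). `W(K)` has finite index in `W(K(θ))`.

Proof. `h` is not zero, so there is `g` with `h g = 1` (a multiple of some `h g'`). Let `F = K⟮θ⟯`; `σ` fixes `F` if and only if
`h σ = 0` (`σ θ = θ + (h σ).val`, `ZMod p → K^s` injective). For `P ∈ W(F)` let `x = pmap W F.val P ∈ W(K^s)` and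
`v i = g ^ (i.val + 1) x - g ^ i.val x`: its sum is `g ^ p x - x = 0` as `h (g ^ p) = 0`, `g ^ p` fixes `F`. `v ∈ RatV W h`: let
`σ ∈ Gal(K^s/K)`, `c = h σ`; `h` is additive with commutative values, `σ g ^ (i - c).val` and `g ^ i.val` have the same value `i` under
`h`, so `(g ^ i.val)⁻¹ σ g ^ (i - c).val` has the value `0` and fixes `x`: `σ g ^ (i - c).val x = g ^ i.val x`; in the same way
`σ g ^ ((i - c).val + 1) x = g ^ (i.val + 1) x` (value `i + 1`). So `σ (v (i - c)) = v i`. The map `P ↦ v` is a homomorphism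
from `W(F)` to the functions `ZMod p → W(K^s)` with finite range (in `RatV`), and its kernel is contained in the range of
`W(K) → W(F)`: if `v 0 = 0` then `g x = x`, so every `σ` fixes `x` (`σ = g ^ n σ'` with `h σ' = 0`), so `x` is the image of a point of
`W(K)` (`S_Bas` (1), last part: the coordinates are fixed by the Galois group, so in `K`), and `P` is the image of this point
(`pmap` is injective). So the range has finite index (`AddSubgroup.finiteIndex_ker`-type: the kernel has finite index as the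
range is finite; a subgroup containing a subgroup of finite index has finite index). -/
def S_IdxE : Prop :=
  ∀ (p : ℕ) [Fact p.Prime], p ≠ 2 → ∀ (K : Type) [Field K] [CharP K p] (W : WeierstrassCurve K),
    IsNf W → ∀ (D : K) (θ : Kgs K) (h : Gal(Kgs K/K) → ZMod p),
    θ ^ p - θ = algebraMap K (Kgs K) D → (∀ σ : Gal(Kgs K/K), σ θ = θ + ((h σ).val : Kgs K)) →
    HomP p h → (∃ σ, h σ ≠ 0) → (RatV W h).Finite →
    (Affine.Point.map (W' := W.toAffine) (Algebra.ofId K K⟮θ⟯)).range.FiniteIndex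

/-- **Eql** (100 lines). The literal form of the properties.

Proof. See `W2/Fin/Eqv.lean`. `MP72Q.pmap`, `MP72W.pmap` are the same function (`rfl`). `MP72Q.Rat W h = RatV W h` (`tac` is the
twisted action, `funext`). `MP72Q.InSha W h z → ShaV W h z`: `CocV` (componentwise), `LocV` is the special case
`M = v.Completion`, `N = Kvs v` of `MP72Q.LocTriv` (`v.Completion` is a complete normed field in which `K` is dense, and the norm
extends `v`; `hh : ∀ x, τ (ι x) = ι (σ x)`). So `ShaFinV W h → MP72Q.ShaPFin W h` with the same finite set `T`. -/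
def S_Eql : Prop :=
  ∀ (p : ℕ) [Fact p.Prime] (K : Type) [Field K] (W : WeierstrassCurve K)
    (h : Gal(Kgs K/K) → ZMod p), GdV W h → (MP72Q.Rat W h).Finite ∧ MP72Q.ShaPFin W h

/-- **Alp** (150 lines, uses `S_RH90`, `S_Bas`, `S_It`, `S_Has`). The element `α`.

Proof. `addOrderOf R = p` (`S_It` (8), `p ^ 1 = p`). For `σ ∈ Gal(K^s/K)`: `Vn (σ R) = σ (Vn R) = 0`, so `σ R = m • R` and `m` is unique
modulo `p`; let `w σ ∈ ZMod p` be its class, `σ R = (w σ).val • R`, `w σ ≠ 0` (`σ` is injective on points), `w (σ τ) = w σ * w τ`,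
locally constant (the stabilizers of the coordinates of `R` are open). `s σ = op (Kgs K) (w σ) ≠ 0`; `op` is multiplicative
(`CharP`), its values are fixed by the Galois group, so `s (σ τ) = s σ * σ (s τ)`. `S_RH90` (multiplicative) for `E = ⊥`
(`fixingSubgroup ⊥ = ⊤`) gives `α ≠ 0` with `σ α = s σ * α`. `(s σ) ^ (p - 1) = 1`, so `α ^ (p - 1)` is fixed by all `σ` and
is the image of `h ∈ K`, `h ≠ 0`. `omc p α σ = w σ` as `op` is injective (`σ α = op (omc p α σ) * α`, `S_Has`). -/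
def S_Alp : Prop :=
  ∀ (p : ℕ) [Fact p.Prime], p ≠ 2 → ∀ (K : Type) [Field K] [CharP K p] (W : WeierstrassCurve K),
    IsNf W → ∀ R : Pt p W 1 (Kgs K), IsR p W 1 R →
    ∃ (α : Kgs K) (h : K), h ≠ 0 ∧ α ^ (p - 1) = algebraMap K (Kgs K) h ∧
      ∀ σ : Gal(Kgs K/K),
        pmap (fr p W 1) (σ : Kgs K →ₐ[K] Kgs K) R = (omc p α σ).val • R

/-- **Nbd** (150 lines, uses `S_Lrb`, `S_Lfn`, `S_Hst`, `S_Rgo`, `S_It`, `S_FS`). The Selmer vectors for `E_0 → E_1` are finite
in number.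

Proof. `S_FS` for `k = 1`, `ψ g = ((omS p av α g).val : ZMod (p ^ 1))`: locally constant, `ψ 1 = 1`, multiplicative (`p ^ 1 = p`:
the cast is a ring isomorphism; `S_Hst`: `ChO p (omS ..)`), `y = 0` in the congruence;
`σ R = (omc p α σ).val • R` and `omS (rG σ) = omc p α σ` (`S_Rgo`). `IsLam p 1` exists by `S_Lfn`. So
`n ≤ n * p ^ (p - 1) ≤ N`, `N` the number of the elements of the kernel. -/
def S_Nbd : Prop :=
  ∀ (p : ℕ) [Fact p.Prime], p ≠ 2 → ∀ (K : Type) [Field K] [CharP K p], GFld p K →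
    ∀ (W : WeierstrassCurve K), IsNf W → ∀ (J : Type) (av : J → AbsoluteValue K ℝ)
    (α : Kgs K) (h₀ : K), HS p av α h₀ → ∀ (ι : ∀ j, Kgs K →ₐ[K] Kvs (av j)) (T : J → Type)
      (t : ∀ w, T w → Gal(Kvs (av w)/(av w).Completion)) (w₀ : J) (d : ℕ)
      (e : Fin d → Gal(Kvs (av w₀)/(av w₀).Completion)),
      LTs p (omS p av α) (fun w => rOm p av α (ι w)) t w₀ e →
    ∀ y₀ : Fin (d + 1) → GS p av α ⊕ J,
      (tsL (fun w => rOm p av α (ι w)) t w₀ e y₀).Ok p (omS p av α) (DS p av α ι) →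
    ∀ R : Pt p W 1 (Kgs K), IsR p W 1 R →
    (∀ σ : Gal(Kgs K/K), pmap (fr p W 1) (σ : Kgs K →ₐ[K] Kgs K) R = (omc p α σ).val • R) →
    HWu p W av 1 → ∀ D ∈ OS av, ∃ N : ℕ, ∀ (n : ℕ) (P : Fin n → ZMod p → Pt p W 1 (Kgs K)),
      (∀ i, SeF p W (hD p D) 1 (P i)) →
      (∀ i j, i ≠ j → ¬ ∃ q : ZMod p → Pt p W 0 (Kgs K), ∑ l, q l = 0 ∧
        ∀ l, P i l - P j l = Fn p W 1 (q l)) → n ≤ N

/-- **Thm** (300 lines, uses `MP72V.S_Bas`, `S_Or`, `S_It`, `S_Rk`, `S_Has`, `S_Hst`, `S_Rgo`, `S_Dep`, `S_Fr1V`, `S_Man`,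
`S_EN`, `S_S0x`, `S_UnW`, `S_LoW`, `S_GdT`, `S_Alp`, `S_Nbd`). THE THEOREM in the notation of the internal definitions.

Proof. `R ∈ E_1(K^s)` with `IsR p W 1 R` (`S_Rk` (2), `K^s` is separably closed), `α`, `h₀` as in `S_Alp`. `W₁ = fr p W 1`: `IsNf`,
`Od p W₁` (`S_Or`), `fr p W₁ 0 = fr p W 1` and `fr p W 0 = W` (`S_Bas` (2) and the definition: `x ^ p ^ 0 = x`). Let `av₀` be
the family consisting of the families of `S_S0x` for `h₀` and of `S_UnW` for `W` and for `W₁` (all nontrivial; a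
family on `Fin m ⊕ Fin m' ⊕ Fin m''`, reindexed by `finSumFinEquiv`). Let `av` be a family as in the statement. `HS p av α h₀`
(`S_S0x`; `J = Fin n` is nonempty as `2 ≤ card`). Embeddings `ι j : K^s → Kvs (av j)` exist (`IsSepClosed.lift`; `Kvs v` is
separably closed, an algebra over `K`). `S_GdT` gives the data `d, T, t, w₀, e, y₀, B, N0`; `Good.ok`, `Good.fin`.
(1) `S_Man` for `W₁` and the point `T₀ ∈ E_0`-level of `W₁` corresponding to `R` under `fr p W₁ 0 = fr p W 1` (transport along the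
equality: it is not zero, killed by `p` (`addOrderOf R = p`), `σ T₀ = (omc p α σ).val • T₀`). Hypotheses: `HUn`, `HWu` by `S_UnW`, `HLo` by
`S_LoW` (`av j` nontrivial), `HEn` by `S_EN` for the curve `fr p W₁ 0` (`hD p D` is `HomP` by `S_Has` for `α = 1`, or `S_Rgo` and
`S_Hst`). So for `𝒟 ⊇ FS av e₁` the number of
the `D ∈ 𝒟` for which `GdV (fr p W₁ 0) (hD p D)` is false is at most `(ε / 2) #𝒟`. (2) `S_Dep` for `M = 1`, `ε / 2`: for `𝒟 ⊇ FS av e₂` the
number of the `D ∈ 𝒟` with `D = x ^ p - x`, `x ∈ K`, is at most `(ε / 2) #𝒟` (`J` is not empty). (3) `GdV (fr p W 1) (hD p D)` implies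
`GdV (fr p W 0) (hD p D)` by `S_Fr1V` and `S_Nbd`. -/
def S_Thm : Prop :=
  ∀ (p : ℕ) [Fact p.Prime], p ≠ 2 → ∀ (K : Type) [Field K] [CharP K p], GFld p K →
    ∀ W : WeierstrassCurve K, IsNf W → Od p W →
    ∃ (m : ℕ) (av₀ : Fin m → AbsoluteValue K ℝ), (∀ i, (av₀ i).IsNontrivial) ∧
      ∀ (n : ℕ) (av : Fin n → AbsoluteValue K ℝ), Pls av → (∀ i, ∃ j, (av j).IsEquiv (av₀ i)) →
        (∀ e, (FS av e : Set (OS av)).Finite) ∧
        ∀ ε : ℝ, 0 < ε → ∃ e₀ : ℕ, ∀ 𝒟 : AddSubgroup (OS av), (𝒟 : Set (OS av)).Finite →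
          FS av e₀ ≤ 𝒟 →
          ({D : OS av | D ∈ 𝒟 ∧ ¬ ((¬ ∃ x : K, x ^ p - x = (D : K)) ∧
            GdV W (hD p (D : K)))}.ncard : ℝ) ≤ ε * Nat.card 𝒟

/-- **Fin** (250 lines, uses `S_Na`, `S_Has`, `S_Fdg`, `S_IdxE`, `S_Eql`, `S_Thm`). THE FINAL STATEMENT.

Proof. `IsGlobal p K` is `GFld p K` (`rfl`), `CharP K p` (`K` is an algebra over `RatFunc F`). `IsNf W`, `Od p W` from the
hypotheses. `av₀`, `e₀` from `S_Thm` (`Places av` is `Pls av`), `B₀ = 2 ^ e₀`. Let `B j ≥ B₀`. By `S_Na` all absolute values of `K` are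
nonarchimedean, so `OS av` is the set of the `f` with `v f ≤ 1` for all nontrivial `v` not equivalent to an `av j`, and
`𝒟 = {D : OS av | ∀ j, av j D ≤ B j}` is a subgroup containing `FS av e₀`; it is contained in some `FS av e` (`2 ^ e ≥ B j` for all
`j`), so finite. `Tw av B` is the image of `𝒟` under the injective map `OS av → K`. For `D ∈ 𝒟` outside the exceptional
set: by `S_Has` (3) (`α = 1`, `h = 1`; roots exist in `K^s` by separability and `IsSepClosed`) there is `θ` with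
`θ ^ p - θ = D` and `σ θ = θ + op (hP p 1 D σ)`; take `h = hD p D`. `HomP p h` (`S_Has` (3), `omc p 1 = 1`), `h ≠ 0`
(otherwise `θ ∈ K`). `MP72Q.Good W p D` by `S_Fdg`, `S_Eql`, `S_IdxE` (`GdV.1`). So
`#Tw - #{Good} ≤ #(exceptional set) ≤ ε #𝒟 = ε #Tw`. -/
def S_Fin : Prop := MP72Q.T3p

end Pool.Agent.MP72P
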