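import Pool.Agent.Lib.MP_72e2e6_nt.P3.F.Spec

/-!
# MP_72e2e6_nt, theorem T3p, part F: Alp, the element `α` (helper84)
-/

namespace Pool.Agent.MP72P

set_option autoImplicit false

open WeierstrassCurve IntermediateField
open Pool.Agent.MP72W (pmap)
open Pool.Agent.MP72V

open scoped Classical

section

variable {K L : Type} [Field K] [Field L] [Algebra K L] (W : WeierstrassCurve K)

private theorem al_congr (f g : L →ₐ[K] L) {x y : L}
    (h : (W⁄L).toAffine.Nonsingular x y) (hx : f x = g x) (hy : f y = g y) :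
    pmap W f (Affine.Point.some x y h) = pmap W g (Affine.Point.some x y h) := by
  unfold pmap
  rw [Affine.Point.map_some, Affine.Point.map_some, Affine.Point.some.injEq]
  exact ⟨hx, hy⟩

private theorem al_mul (σ τ : Gal(L/K)) (P : (W⁄L).toAffine.Point) :
    pmap W ((σ * τ : Gal(L/K)) : L →ₐ[K] L) P =
      pmap W (σ : L →ₐ[K] L) (pmap W (τ : L →ₐ[K] L) P) := by
  cases P with
  | zero => rfl
  | some x y h =>
    unfold pmap
    rw [Affine.Point.map_some, Affine.Point.map_some, Affine.Point.map_some,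
      Affine.Point.some.injEq]
    exact ⟨rfl, rfl⟩

private theorem al_loc [IsGalois K L] (P : (W⁄L).toAffine.Point) :
    IsLocallyConstant fun σ : Gal(L/K) => pmap W (σ : L →ₐ[K] L) P := by
  have hop : ∀ (σ : Gal(L/K)) (x : L), IsOpen {τ : Gal(L/K) | τ x = σ x} := by
    intro σ x
    have h1 : IsOpen (MulAction.stabilizer Gal(L/K) x : Set Gal(L/K)) :=
      stabilizer_isOpen_of_isIntegral x
    have h2 := h1.preimage (continuous_const_mul σ⁻¹)
    have h3 : {τ : Gal(L/K) | τ x = σ x} = (fun τ => σ⁻¹ * τ) ⁻¹'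
        (MulAction.stabilizer Gal(L/K) x : Set Gal(L/K)) := by
      ext τ
      rw [Set.mem_preimage, SetLike.mem_coe, MulAction.mem_stabilizer_iff, mul_smul,
        inv_smul_eq_iff]
      exact Iff.rfl
    rw [h3]
    exact h2
  rw [IsLocallyConstant.iff_exists_open]
  intro σ
  cases P with
  | zero => exact ⟨Set.univ, isOpen_univ, trivial, fun τ _ => rfl⟩
  | some x y h =>
    refine ⟨{τ | τ x = σ x} ∩ {τ | τ y = σ y}, (hop σ x).inter (hop σ y), ⟨rfl, rfl⟩, ?_⟩
    rintro τ ⟨hx, hy⟩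
    have hx' : τ x = σ x := hx
    have hy' : τ y = σ y := hy
    exact al_congr W (τ : L →ₐ[K] L) (σ : L →ₐ[K] L) h hx' hy'

end

section

variable {p : ℕ} [Fact p.Prime]

private theorem al_op (L : Type) [Field L] [CharP L p] (c : ZMod p) :
    op L c = ZMod.castHom (dvd_refl p) L c := by
  unfold op
  rw [ZMod.castHom_apply, ZMod.natCast_val]

private theorem al_op_inj {L : Type} [Field L] [CharP L p] {a b : ZMod p}
    (h : op L a = op L b) : a = b := by
  rw [al_op, al_op] at h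
  exact (ZMod.castHom (dvd_refl p) L).injective h

/-- multiples of an element of order `p` -/
private theorem al_nsm {G : Type} [AddCommGroup G] {R : G} (hR : addOrderOf R = p) (a b : ℕ) :
    a • R = b • R ↔ (a : ZMod p) = (b : ZMod p) := by
  rw [ZMod.natCast_eq_natCast_iff, ← hR]
  exact nsmul_eq_nsmul_iff_modEq

private theorem al_val {G : Type} [AddCommGroup G] {R : G} (hR : addOrderOf R = p) (m : ℕ) :
    ((m : ZMod p)).val • R = m • R := by
  rw [al_nsm hR, ZMod.natCast_val, ZMod.cast_id', id]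

/-- the cohomological part -/
private theorem al_coc (hH : S_RH90) (hHas : S_Has) {K L : Type} [Field K] [Field L] [Algebra K L]
    [CharP K p] [IsGalois K L] (w : Gal(L/K) → ZMod p) (hw0 : ∀ σ, w σ ≠ 0)
    (hwm : ∀ σ τ, w (σ * τ) = w σ * w τ) (hwl : IsLocallyConstant w) :
    ∃ (α : L) (h : K), h ≠ 0 ∧ α ^ (p - 1) = algebraMap K L h ∧ ∀ σ, omc p α σ = w σ := by
  have hcL : CharP L p := charP_of_injective_algebraMap (algebraMap K L).injective p
  have hop0 : ∀ c : ZMod p, c ≠ 0 → op L c ≠ 0 := by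
    intro c hc h
    rw [al_op] at h
    exact hc ((map_eq_zero _).1 h)
  have hopf : ∀ (σ : Gal(L/K)) (c : ZMod p), σ (op L c) = op L c := by
    intro σ c
    unfold op
    exact map_natCast σ _
  obtain ⟨α, hα, hs⟩ := (hH K L ⊥).1
    (fun σ => op L (w (σ : Gal(L/K))))
    ((hwl.comp (fun c => op L c)).comp_continuous continuous_subtype_val)
    (fun σ => hop0 _ (hw0 _))
    (by
      intro σ τ
      show op L (w ((σ : Gal(L/K)) * (τ : Gal(L/K)))) = _
      rw [hopf, hwm, al_op, al_op, al_op, map_mul])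
  have hall : ∀ σ : Gal(L/K), σ α = op L (w σ) * α := by
    intro σ
    have hmem : σ ∈ (⊥ : IntermediateField K L).fixingSubgroup := by
      rw [IntermediateField.fixingSubgroup_bot]
      exact Subgroup.mem_top σ
    have h1 : op L (w σ) = σ α / α := hs ⟨σ, hmem⟩
    rw [h1, div_mul_cancel₀ _ hα]
  have hfix : ∀ σ : Gal(L/K), σ (α ^ (p - 1)) = α ^ (p - 1) := by
    intro σ
    rw [map_pow, hall, mul_pow, al_op, ← map_pow, ZMod.pow_card_sub_one_eq_one (hw0 σ), map_one,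
      one_mul]
  have hbot : α ^ (p - 1) ∈ (⊥ : IntermediateField K L) :=
    (InfiniteGalois.mem_bot_iff_fixed _).2 hfix
  rw [IntermediateField.mem_bot] at hbot
  obtain ⟨h, hh⟩ := hbot
  refine ⟨α, h, ?_, hh.symm, ?_⟩
  · rintro rfl
    rw [map_zero] at hh
    exact pow_ne_zero (p - 1) hα hh.symm
  · intro σ
    have h1 := ((hHas p K L α h hα hh.symm).1).2 σ
    rw [hall σ] at h1
    exact (al_op_inj (mul_right_cancel₀ hα h1)).symm

/-- the multiplier -/
private theorem al_mlt (hB : MP72V.S_Bas) (hI : S_It) (hp2 : p ≠ 2) {K : Type} [Field K]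
    [CharP K p] {W : WeierstrassCurve K} (hW : IsNf W) {L : Type} [Field L] [Algebra K L]
    [IsGalois K L] (R : Pt p W 1 L) (hR : IsR p W 1 R) :
    ∃ w : Gal(L/K) → ZMod p, (∀ σ, w σ ≠ 0) ∧ (∀ σ τ, w (σ * τ) = w σ * w τ) ∧
      IsLocallyConstant w ∧
      ∀ σ : Gal(L/K), pmap (fr p W 1) (σ : L →ₐ[K] L) R = (w σ).val • R := by
  have h2 : (2 : K) ≠ 0 := by
    intro h
    have h1 : ((2 : ℕ) : K) = 0 := by exact_mod_cast h
    rw [CharP.cast_eq_zero_iff K p] at h1
    exact hp2 ((Nat.prime_dvd_prime_iff_eq Fact.out Nat.prime_two).1 h1)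
  have hW1 : IsNf (fr p W 1) := ((hB.2 K p W hW).1 1).1
  obtain ⟨-, -, -, -, -, hI6, -, hI8, -, -⟩ := hI p hp2 K W hW L
  obtain ⟨hord, hker⟩ := hI8 1 R hR
  rw [pow_one] at hord
  have hR0 : R ≠ 0 := by
    intro h0
    apply hR.2 0 one_pos
    rw [h0, nsmul_zero]
  have hex : ∀ σ : Gal(L/K), ∃ m : ℕ, pmap (fr p W 1) (σ : L →ₐ[K] L) R = m • R := by
    intro σ
    rw [← hker]
    have h1 := (hI6 1 K L (σ : L →ₐ[K] L)).2 R
    rw [hR.1] at h1
    rw [← h1]
    exact map_zero (pmap (fr p W 0) (σ : L →ₐ[K] L))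
  choose m hm using hex
  have hinj : ∀ σ : Gal(L/K), Function.Injective (pmap (fr p W 1) (σ : L →ₐ[K] L)) := by
    intro σ
    exact ((hB.1 K h2 (fr p W 1) hW1 L).2.2.2.2.2 K L (σ : L →ₐ[K] L)).2.1
  have hw : ∀ σ : Gal(L/K), pmap (fr p W 1) (σ : L →ₐ[K] L) R = ((m σ : ZMod p)).val • R := by
    intro σ
    rw [al_val hord, hm]
  refine ⟨fun σ => (m σ : ZMod p), ?_, ?_, ?_, hw⟩
  · intro σ h0
    have h1 := hw σ
    have h0' : (m σ : ZMod p) = 0 := h0
    rw [h0', ZMod.val_zero, zero_nsmul] at h1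
    apply hR0
    apply hinj σ
    rw [h1]
    exact (map_zero (pmap (fr p W 1) (σ : L →ₐ[K] L))).symm
  · intro σ τ
    show (m (σ * τ) : ZMod p) = (m σ : ZMod p) * (m τ : ZMod p)
    rw [← Nat.cast_mul, ← al_nsm hord, ← hm, al_mul, hm τ, mul_comm (m σ), mul_nsmul', ← hm σ]
    exact map_nsmul (pmap (fr p W 1) (σ : L →ₐ[K] L)) (m τ) R
  · have h1 := al_loc (fr p W 1) R
    rw [IsLocallyConstant.iff_exists_open] at h1 ⊢
    intro σ
    obtain ⟨U, hU, hσ, hUc⟩ := h1 σ
    refine ⟨U, hU, hσ, fun τ hτ => ?_⟩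
    rw [← al_nsm hord, ← hm, ← hm]
    exact hUc τ hτ

private theorem al_key (hH : S_RH90) (hB : MP72V.S_Bas) (hI : S_It) (hHas : S_Has) (hp2 : p ≠ 2)
    {K : Type} [Field K] [CharP K p] {W : WeierstrassCurve K} (hW : IsNf W) {L : Type} [Field L]
    [Algebra K L] [IsGalois K L] (I : DecidableEq L) (R : Pt p W 1 L) (hR : IsR p W 1 R) :
    ∃ (α : L) (h : K), h ≠ 0 ∧ α ^ (p - 1) = algebraMap K L h ∧
      ∀ σ : Gal(L/K), pmap (fr p W 1) (σ : L →ₐ[K] L) R = (omc p α σ).val • R := by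
  obtain rfl : I = fun a b => Classical.propDecidable (a = b) := Subsingleton.elim _ _
  obtain ⟨w, hw0, hwm, hwl, hw⟩ := al_mlt hB hI hp2 hW R hR
  obtain ⟨α, h, h0, h1, h2⟩ := al_coc hH hHas w hw0 hwm hwl
  refine ⟨α, h, h0, h1, fun σ => ?_⟩
  rw [h2 σ]
  exact hw σ

end

theorem tAlp (hH : S_RH90) (hB : MP72V.S_Bas) (hI : S_It) (hHas : S_Has) : S_Alp := by
  intro p _ hp2 K _ _ W hW R hR
  exact al_key hH hB hI hHas hp2 hW _ R hR

end Pool.Agent.MP72P
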