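import Pool.Agent.Lib.MP_72e2e6_nt.P3.E.DefsB
import Pool.Agent.Lib.MP_72e2e6_nt.P3.N.Defs
import Pool.Agent.Lib.MP_72e2e6_nt.P3.R.DefsC

/-!
# MP_72e2e6_nt, theorem T3p, part F: the interfaces to the blocks Lo, La (local theory of the curves) and
L, M (level one, nondegeneracy)
-/

namespace Pool.Agent.MP72P

open WeierstrassCurve
open Pool.Agent.MP72W (pmap)
open Pool.Agent.MP72V

open scoped Classical

/-- Outside a finite set of places everything is unramified. -/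
def S_UnW : Prop :=
  ∀ (p : ℕ) [Fact p.Prime], p ≠ 2 → ∀ (K : Type) [Field K] [CharP K p], GFld p K →
    ∀ W : WeierstrassCurve K, IsNf W → Od p W →
    ∃ (m : ℕ) (av₀ : Fin m → AbsoluteValue K ℝ), (∀ i, (av₀ i).IsNontrivial) ∧
      ∀ (J : Type) (av : J → AbsoluteValue K ℝ), (∀ i, ∃ j, (av j).IsEquiv (av₀ i)) →
        ∀ k, HUn p W av k ∧ HWu p W av k

/-- The local points for deeply ramified `D`. -/
def S_LoW : Prop :=
  ∀ (p : ℕ) [Fact p.Prime], p ≠ 2 → ∀ (K : Type) [Field K] [CharP K p], GFld p K →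
    ∀ W : WeierstrassCurve K, IsNf W → Od p W → ∀ v : AbsoluteValue K ℝ, v.IsNontrivial →
    ∀ k : ℕ, ∃ M : ℝ, ∀ D : K,
      (∀ y : v.Completion, M ≤ ‖algebraMap K v.Completion D - (y ^ p - y)‖) →
      ∀ Q : Pt p W k (Kvs v), IsQ p W k Q → HLo p W k v D Q

/-- The test system and the nondegeneracy. -/
def S_GdT : Prop :=
  ∀ (p : ℕ) [Fact p.Prime], p ≠ 2 → ∀ (K : Type) [Field K] [CharP K p], GFld p K →
    ∀ (J : Type) [Fintype J] (av : J → AbsoluteValue K ℝ) (α : Kgs K) (h : K), HS p av α h →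
    2 ≤ Fintype.card J → ShN p av h = PhN p av h →
    ((∀ y : K, y ^ (p - 1) ≠ h) →
      ∃ j, ∀ y : (av j).Completion, y ^ (p - 1) ≠ algebraMap K (av j).Completion h) →
    ∀ ι : ∀ j, Kgs K →ₐ[K] Kvs (av j),
    ∃ (d : ℕ) (T : J → Type) (t : ∀ w, T w → Gal(Kvs (av w)/(av w).Completion)) (w₀ : J)
      (e : Fin d → Gal(Kvs (av w₀)/(av w₀).Completion)) (y₀ : Fin (d + 1) → GS p av α ⊕ J)
      (B N0 : AddSubgroup (OS av)),
      LTs p (omS p av α) (fun w => rOm p av α (ι w)) t w₀ e ∧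
        (fmS p av α ι B).Good (tsL (fun w => rOm p av α (ι w)) t w₀ e y₀) N0

end Pool.Agent.MP72P
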